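import Pool.Agent.Results.MP_f5adcb_gt.NotMinSpec

/-!
# Spaces with a cocompact pretty base that are not locally dense in any space of minimal primes

Every Tychonoff space `Z` with a cocompact pretty base is a clopen subspace of Tychonoff spaces of
arbitrarily large cardinality which have a cocompact pretty base but are not homeomorphic to any
locally dense subspace (in particular to no open and to no dense subspace) of the space of minimal
prime ideals of a ring of continuous functions or of a reduced commutative ring which satisfies the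
countable annihilator condition. The definitions are those of the file `NotMinSpec`.
-/

set_option autoImplicit false

open Set Filter Topology TopologicalSpace

namespace Pool.Agent.Results.MP_f5adcb_gt.NotLocallyDense

open Pool.Agent.Results.MP_f5adcb_gt.NotMinSpec

/-- `f` is a homeomorphism of `X` onto a locally dense subspace of `S`: a subspace which is dense in
some open subset of `S`. Open embeddings and embeddings with dense image are examples. -/
def IsLocallyDenseEmbedding {X S : Type*} [TopologicalSpace X] [TopologicalSpace S]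
    (f : X → S) : Prop :=
  IsEmbedding f ∧ ∃ O : Set S, IsOpen O ∧ range f ⊆ O ∧ O ⊆ closure (range f)

/-! ### Restriction to a clopen part -/

theorem comp_inl {X W S : Type*} [TopologicalSpace X] [TopologicalSpace W] [TopologicalSpace S]
    {f : X ⊕ W → S} (hf : IsLocallyDenseEmbedding f) :
    IsLocallyDenseEmbedding (fun x => f (Sum.inl x)) := by
  obtain ⟨he, O, hO, h1, h2⟩ := hf
  refine ⟨he.comp IsOpenEmbedding.inl.isEmbedding, ?_⟩
  obtain ⟨V, hV, hVe⟩ := he.isInducing.isOpen_iff.1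
    (IsOpenEmbedding.inl (X := X) (Y := W)).isOpen_range
  refine ⟨V ∩ O, hV.inter hO, ?_, ?_⟩
  · rintro _ ⟨x, rfl⟩
    refine ⟨?_, h1 ⟨_, rfl⟩⟩
    have : (Sum.inl x : X ⊕ W) ∈ f ⁻¹' V := by rw [hVe]; exact ⟨x, rfl⟩
    exact this
  · rintro s ⟨hsV, hsO⟩
    have h3 : s ∈ closure (V ∩ range f) := hV.inter_closure ⟨hsV, h2 hsO⟩
    refine closure_mono ?_ h3
    rintro _ ⟨hz, z, rfl⟩
    have : z ∈ range (Sum.inl : X → X ⊕ W) := by rw [← hVe]; exact hz
    obtain ⟨x, rfl⟩ := this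
    exact ⟨x, rfl⟩

/-! ### The obstruction -/

/-- The space of the starting example is not locally dense in a space of minimal primes. -/
theorem no_embedding (R : Type*) [CommRing R] [IsReduced R] (hR : CAC R)
    (f : Pool.Agent.Helper614.PC.Sp Pool.Agent.Helper614.PX.u
      Pool.Agent.Helper614.PX.small → MinSpec R) : ¬ IsLocallyDenseEmbedding f := by
  rintro ⟨he, O, hO, h1, h2⟩
  have hopen : ∀ a : R, IsOpen (hc a) := fun a => isBasis_hc.isOpen ⟨a, rfl⟩
  let 𝓑 : Set (Set (Pool.Agent.Helper614.PC.Sp Pool.Agent.Helper614.PX.u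
      Pool.Agent.Helper614.PX.small)) := {U | ∃ a : R, hc a ⊆ O ∧ U = f ⁻¹' (hc a)}
  refine Pool.Agent.Helper614.PX.neg 𝓑 ?_ ?_ ?_
  · refine isTopologicalBasis_of_isOpen_of_nhds ?_ ?_
    · rintro _ ⟨a, -, rfl⟩
      exact (hopen a).preimage he.continuous
    · intro x U hx hU
      obtain ⟨V, hV, rfl⟩ := he.isInducing.isOpen_iff.1 hU
      obtain ⟨_, ⟨a, rfl⟩, hxa, haU⟩ := isBasis_hc.exists_subset_of_mem_open
        (show f x ∈ V ∩ O from ⟨hx, h1 ⟨x, rfl⟩⟩) (hV.inter hO)
      exact ⟨_, ⟨a, fun y hy => (haU hy).2, rfl⟩, hxa, fun y hy => (haU hy).1⟩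
  · rintro _ ⟨a, ha, rfl⟩ _ ⟨b, hb, rfl⟩
    refine ⟨a * b, ?_, ?_⟩
    · rw [hc_mul]; exact fun y hy => ha hy.1
    · rw [hc_mul, preimage_inter]
  · intro g hg
    choose a haO ha using hg
    obtain ⟨b, hb⟩ := closure_hc hR a
    have h3 : (⋃ n, g n) = f ⁻¹' (⋃ n, hc (a n)) := by
      rw [preimage_iUnion]
      exact iUnion_congr fun n => ha n
    have h4 : closure (f ⁻¹' (⋃ n, hc (a n))) = f ⁻¹' (closure (⋃ n, hc (a n))) := by
      have hVo : IsOpen (⋃ n, hc (a n)) := isOpen_iUnion fun n => hopen (a n)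
      rw [he.isInducing.closure_eq_preimage_closure_image, image_preimage_eq_inter_range]
      congr 1
      refine Subset.antisymm (closure_mono inter_subset_left) ?_
      refine closure_minimal ?_ isClosed_closure
      intro s hs
      refine hVo.inter_closure ⟨hs, h2 ?_⟩
      obtain ⟨n, hn⟩ := mem_iUnion.1 hs
      exact haO n hn
    rw [h3, h4, hb]
    exact (hopen b).preimage he.continuous

/-! ### Sums of spaces with a cocompact pretty base -/

theorem empty_mem {X : Type*} [TopologicalSpace X] {𝓑 : Set (Set X)} (h : IsPrettyBase 𝓑) :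
    ∅ ∈ 𝓑 := by
  obtain ⟨W, hW, -, h2⟩ := h.nested ∅ (empty_subset _) 𝓑 Subset.rfl countable_empty
    (fun U hU => absurd hU (notMem_empty U))
  have := h2 W hW
  rw [disjoint_self] at this
  rwa [← show W = ∅ from this]

/-- The base of a sum. -/
def sumBase {X Z : Type*} (𝓑 : Set (Set X)) (𝓒 : Set (Set Z)) : Set (Set (X ⊕ Z)) :=
  {U | Sum.inl ⁻¹' U ∈ 𝓑 ∧ Sum.inr ⁻¹' U ∈ 𝓒}

section sum

variable {X Z : Type*} [TopologicalSpace X] [TopologicalSpace Z] {𝓑 : Set (Set X)}
  {𝓒 : Set (Set Z)}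

theorem sum_pretty (h : IsPrettyBase 𝓑) (h' : IsPrettyBase 𝓒) : IsPrettyBase (sumBase 𝓑 𝓒) where
  isBasis := by
    refine isTopologicalBasis_of_isOpen_of_nhds ?_ ?_
    · intro U hU
      exact isOpen_sum_iff.2 ⟨h.isBasis.isOpen hU.1, h'.isBasis.isOpen hU.2⟩
    · rintro (x | z) U hx hU
      · obtain ⟨B, hB, hxB, hBU⟩ := h.isBasis.exists_subset_of_mem_open
          (show x ∈ Sum.inl ⁻¹' U from hx) (isOpen_sum_iff.1 hU).1
        refine ⟨Sum.inl '' B, ⟨?_, ?_⟩, ⟨x, hxB, rfl⟩, ?_⟩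
        · rw [preimage_image_eq _ Sum.inl_injective]; exact hB
        · rw [preimage_inr_image_inl]; exact empty_mem h'
        · rintro _ ⟨y, hy, rfl⟩; exact hBU hy
      · obtain ⟨B, hB, hxB, hBU⟩ := h'.isBasis.exists_subset_of_mem_open
          (show z ∈ Sum.inr ⁻¹' U from hx) (isOpen_sum_iff.1 hU).2
        refine ⟨Sum.inr '' B, ⟨?_, ?_⟩, ⟨z, hxB, rfl⟩, ?_⟩
        · rw [preimage_inl_image_inr]; exact empty_mem h
        · rw [preimage_image_eq _ Sum.inr_injective]; exact hB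
        · rintro _ ⟨y, hy, rfl⟩; exact hBU hy
  isClopen := by
    intro U hU
    have h1 := h.isClopen _ hU.1
    have h2 := h'.isClopen _ hU.2
    exact ⟨isClosed_sum_iff.2 ⟨h1.1, h2.1⟩, isOpen_sum_iff.2 ⟨h1.2, h2.2⟩⟩
  nested := by
    intro 𝒞 h𝒞 𝒟 h𝒟 hc hd
    obtain ⟨W₁, hW₁, ha₁, hb₁⟩ := h.nested ((fun U => Sum.inl ⁻¹' U) '' 𝒞)
      (by rintro _ ⟨U, hU, rfl⟩; exact (h𝒞 hU).1) ((fun U => Sum.inl ⁻¹' U) '' 𝒟)
      (by rintro _ ⟨U, hU, rfl⟩; exact (h𝒟 hU).1) (hc.image _) (by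
        rintro _ ⟨U, hU, rfl⟩ _ ⟨V, hV, rfl⟩
        exact (hd U hU V hV).preimage _)
    obtain ⟨W₂, hW₂, ha₂, hb₂⟩ := h'.nested ((fun U => Sum.inr ⁻¹' U) '' 𝒞)
      (by rintro _ ⟨U, hU, rfl⟩; exact (h𝒞 hU).2) ((fun U => Sum.inr ⁻¹' U) '' 𝒟)
      (by rintro _ ⟨U, hU, rfl⟩; exact (h𝒟 hU).2) (hc.image _) (by
        rintro _ ⟨U, hU, rfl⟩ _ ⟨V, hV, rfl⟩
        exact (hd U hU V hV).preimage _)
    have p1 : Sum.inl ⁻¹' (Sum.inl '' W₁ ∪ Sum.inr '' W₂ : Set (X ⊕ Z)) = W₁ := by
      rw [preimage_union, preimage_image_eq _ Sum.inl_injective, preimage_inl_image_inr,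
        union_empty]
    have p2 : Sum.inr ⁻¹' (Sum.inl '' W₁ ∪ Sum.inr '' W₂ : Set (X ⊕ Z)) = W₂ := by
      rw [preimage_union, preimage_image_eq _ Sum.inr_injective, preimage_inr_image_inl,
        empty_union]
    refine ⟨Sum.inl '' W₁ ∪ Sum.inr '' W₂, ⟨?_, ?_⟩, ?_, ?_⟩
    · rw [p1]; exact hW₁
    · rw [p2]; exact hW₂
    · rintro U hU (x | z) hx
      · exact Or.inl ⟨x, ha₁ _ ⟨U, hU, rfl⟩ hx, rfl⟩
      · exact Or.inr ⟨z, ha₂ _ ⟨U, hU, rfl⟩ hx, rfl⟩
    · intro V hV
      rw [Set.disjoint_left]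
      rintro (x | z) hx hxV
      · have : x ∈ W₁ := by rw [← p1]; exact hx
        exact Set.disjoint_left.1 (hb₁ _ ⟨V, hV, rfl⟩) this hxV
      · have : z ∈ W₂ := by rw [← p2]; exact hx
        exact Set.disjoint_left.1 (hb₂ _ ⟨V, hV, rfl⟩) this hxV

theorem sum_compact (h : IsPrettyBase 𝓑) (h' : IsPrettyBase 𝓒)
    (hc : @CompactSpace X (cotopology 𝓑)) (hc' : @CompactSpace Z (cotopology 𝓒)) :
    @CompactSpace (X ⊕ Z) (cotopology (sumBase 𝓑 𝓒)) := by
  have e : ∀ U ∈ sumBase 𝓑 𝓒, closure U = U := fun U hU =>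
    ((sum_pretty h h').isClopen U hU).1.closure_eq
  have c1 : @Continuous X (X ⊕ Z) (cotopology 𝓑) (cotopology (sumBase 𝓑 𝓒)) Sum.inl := by
    rw [continuous_generateFrom_iff]
    rintro _ ⟨U, hU, rfl⟩
    rw [e U hU, preimage_compl]
    refine GenerateOpen.basic _ ⟨_, hU.1, ?_⟩
    rw [(h.isClopen _ hU.1).1.closure_eq]
  have c2 : @Continuous Z (X ⊕ Z) (cotopology 𝓒) (cotopology (sumBase 𝓑 𝓒)) Sum.inr := by
    rw [continuous_generateFrom_iff]
    rintro _ ⟨U, hU, rfl⟩
    rw [e U hU, preimage_compl]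
    refine GenerateOpen.basic _ ⟨_, hU.2, ?_⟩
    rw [(h'.isClopen _ hU.2).1.closure_eq]
  have r1 := @isCompact_range _ _ (cotopology 𝓑) (cotopology (sumBase 𝓑 𝓒)) hc _ c1
  have r2 := @isCompact_range _ _ (cotopology 𝓒) (cotopology (sumBase 𝓑 𝓒)) hc' _ c2
  refine @CompactSpace.mk _ (cotopology (sumBase 𝓑 𝓒)) ?_
  rw [← range_inl_union_range_inr]
  exact @IsCompact.union _ (cotopology (sumBase 𝓑 𝓒)) _ _ r1 r2

theorem sum_cocompact (h : HasCocompactPrettyBase X) (h' : HasCocompactPrettyBase Z) :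
    HasCocompactPrettyBase (X ⊕ Z) := by
  obtain ⟨𝓑, h1, h2⟩ := h
  obtain ⟨𝓒, h3, h4⟩ := h'
  exact ⟨sumBase 𝓑 𝓒, sum_pretty h1 h3, sum_compact h1 h3 h2 h4⟩

theorem sum_t35 (hX : T35Space X) (hZ : T35Space Z) (h : HasCocompactPrettyBase (X ⊕ Z)) :
    T35Space (X ⊕ Z) := by
  obtain ⟨𝓑, h1, -⟩ := h
  have : CompletelyRegularSpace (X ⊕ Z) :=
    CompletelyRegularSpace.of_isTopologicalBasis_clopens <| by
      refine isTopologicalBasis_of_isOpen_of_nhds (fun U hU => hU.2) ?_
      intro x U hx hU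
      obtain ⟨V, hV, hxV, hVU⟩ := h1.isBasis.exists_subset_of_mem_open hx hU
      exact ⟨V, h1.isClopen V hV, hxV, hVU⟩
  constructor

end sum

/-! ### Large spaces -/

/-- The space of ultrafilters on a set has a cocompact pretty base. -/
theorem ultrafilter_cocompact (κ : Type) : HasCocompactPrettyBase (Ultrafilter κ) := by
  refine ⟨ultrafilterBasis κ, ⟨ultrafilterBasis_is_basis, ?_, ?_⟩, ?_⟩
  · rintro _ ⟨s, rfl⟩
    exact ⟨ultrafilter_isClosed_basic s, ultrafilter_isOpen_basic s⟩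
  · intro 𝒞 h𝒞 𝒟 h𝒟 _ hd
    refine ⟨{u | {k | (pure k : Ultrafilter κ) ∈ ⋃₀ 𝒞} ∈ u}, ⟨_, rfl⟩, ?_, ?_⟩
    · intro U hU
      obtain ⟨s, rfl⟩ := h𝒞 hU
      intro u hu
      refine Filter.mem_of_superset hu ?_
      intro k hk
      exact ⟨_, hU, mem_pure.2 hk⟩
    · intro V hV
      obtain ⟨t, rfl⟩ := h𝒟 hV
      rw [Set.disjoint_left]
      intro u hu hut
      obtain ⟨k, hk, hkt⟩ := u.nonempty_of_mem (Filter.inter_mem hu hut)
      obtain ⟨U, hU, hkU⟩ := hk
      exact Set.disjoint_left.1 (hd U hU _ hV) hkU (mem_pure.2 hkt)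
  · have hle : (inferInstance : TopologicalSpace (Ultrafilter κ)) ≤
        cotopology (ultrafilterBasis κ) := by
      refine le_generateFrom ?_
      rintro _ ⟨U, -, rfl⟩
      exact isClosed_closure.isOpen_compl
    have hid : @Continuous (Ultrafilter κ) (Ultrafilter κ) inferInstance
        (cotopology (ultrafilterBasis κ)) id := continuous_id_iff_le.2 hle
    have hr := @isCompact_range _ _ _ (cotopology (ultrafilterBasis κ)) inferInstance _ hid
    refine @CompactSpace.mk _ (cotopology (ultrafilterBasis κ)) ?_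
    rwa [range_id] at hr

open Pool.Agent.Helper614.PC Pool.Agent.Helper614.PX in
/-- **Main result.** Let `Z` be a Tychonoff space with a cocompact pretty base and `κ` a set. There
is a Tychonoff space `X` with a cocompact pretty base, with at least as many points as `κ`, which
contains `Z` as a clopen subspace, and which is homeomorphic to no locally dense (in particular to
no open and to no dense) subspace of the space of minimal prime ideals of a ring of continuous
functions or of a reduced commutative ring satisfying the countable annihilator condition. -/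
theorem result.{v, w} : ∀ (Z : Type) [TopologicalSpace Z], T35Space Z →
    HasCocompactPrettyBase Z → ∀ κ : Type,
    ∃ (X : Type) (_ : TopologicalSpace X), T35Space X ∧ HasCocompactPrettyBase X ∧
      Nonempty (κ ↪ X) ∧ (∃ i : Z → X, IsOpenEmbedding i ∧ IsClosedEmbedding i) ∧
      (∀ (Y : Type v) [TopologicalSpace Y] (f : X → MinSpec C(Y, ℝ)),
        ¬ IsLocallyDenseEmbedding f) ∧
      (∀ (R : Type w) [CommRing R] [IsReduced R], CAC R → ∀ f : X → MinSpec R,
        ¬ IsLocallyDenseEmbedding f) := by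
  intro Z _ hZ hZc κ
  have h0 : T35Space (Sp u small) := t35 good
  have h0c : HasCocompactPrettyBase (Sp u small) := by
    refine ⟨hat u small '' L, ⟨isBasis_lat good, ?_, ?_⟩, cocompact good⟩
    · rintro _ ⟨E, hE, rfl⟩; exact isClopen_hat good hE
    · intro 𝒞 h𝒞 𝒟 h𝒟 hc hd
      exact nested good 𝒞 𝒟 h𝒞 h𝒟 hc hd
  have hUc := ultrafilter_cocompact κ
  have hU : T35Space (Ultrafilter κ) := inferInstance
  have h1c := sum_cocompact hZc hUc
  have h1 := sum_t35 hZ hU h1c
  have h2c := sum_cocompact h0c h1c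
  have h2 := sum_t35 h0 h1 h2c
  refine ⟨Sp u small ⊕ (Z ⊕ Ultrafilter κ), inferInstance, h2, h2c, ?_, ?_, ?_, ?_⟩
  · exact ⟨⟨fun k => Sum.inr (Sum.inr (pure k)), fun a b h =>
      Ultrafilter.pure_injective (Sum.inr_injective (Sum.inr_injective h))⟩⟩
  · exact ⟨fun z => Sum.inr (Sum.inl z), IsOpenEmbedding.inr.comp IsOpenEmbedding.inl,
      IsClosedEmbedding.inr.comp IsClosedEmbedding.inl⟩
  · intro Y _ f hf
    have := isReduced_C Y
    exact no_embedding C(Y, ℝ) (cac_C Y) _ (comp_inl hf)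
  · intro R _ _ hR f hf
    exact no_embedding R hR _ (comp_inl hf)

end Pool.Agent.Results.MP_f5adcb_gt.NotLocallyDense
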